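import Pool.Agent.W201.NT.StmT

/-! Project NT: compact supports. -/

set_option autoImplicit false

namespace Pool.Agent.W143.NT.CS

open Pool.Agent.W201.NT Pool.Agent.Helper381

theorem main : S_SUB → S_CS := by
  intro hS X _ n h z hz
  have hK : IsCompact (⋃ σ ∈ (z.support : Set (Sing X n)), Set.range σ) :=
    z.support.finite_toSet.isCompact_biUnion (fun σ _ => isCompact_range σ.continuous)
  obtain ⟨P, hKP, hV⟩ := h _ hK
  obtain ⟨b, _, hb⟩ := (hS X P n).1 hV z hz (by
    rw [Finsupp.mem_supported]
    intro σ hσ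
    exact (Set.subset_biUnion_of_mem (u := fun σ : Sing X n => Set.range σ) hσ).trans hKP)
  exact ⟨b, hb⟩

end Pool.Agent.W143.NT.CS
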